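import Pool.Agent.H33MU.Herb1
import Pool.Agent.H55.MU.Stm

/-!
# Herbrand quotient of the units, cyclic groups of prime power order
-/

set_option linter.style.haveILetI false
set_option linter.unusedSectionVars false
set_option linter.unusedVariables false

open Module Pool.Agent.TeamU Polynomial Pool.Agent.Helper832_EG

namespace Pool.Agent.H33MU

section
variable {U : Type} [CommGroup U]

/-- `u ↦ u * s u * ... * s^(n-1) u` -/
def nuj (s : U →* U) (n : ℕ) : U →* U := ∏ i ∈ Finset.range n, itr s i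

lemma nuj_apply (s : U →* U) (n : ℕ) (u : U) : nuj s n u = ∏ i ∈ Finset.range n, s^[i] u := by
  rw [nuj, MonoidHom.finsetProd_apply]
  exact Finset.prod_congr rfl fun i _ => itr_apply s i u

lemma iter_prod (s : U →* U) (m n : ℕ) (g : ℕ → U) :
    s^[m] (∏ i ∈ Finset.range n, g i) = ∏ i ∈ Finset.range n, s^[m] (g i) := by
  have h := map_prod (itr s m) g (Finset.range n)
  simpa only [itr_apply] using h

lemma nuj_mul (s : U →* U) (a b : ℕ) (u : U) :
    nuj s (a * b) u = ∏ i ∈ Finset.range a, s^[i * b] (nuj s b u) := by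
  induction a with
  | zero => simp [nuj_apply]
  | succ a ih =>
    rw [Finset.prod_range_succ, ← ih, nuj_apply, nuj_apply, nuj_apply, add_mul, one_mul,
      Finset.prod_range_add, iter_prod]
    congr 1
    exact Finset.prod_congr rfl fun i _ => by rw [Function.iterate_add_apply]

lemma nuj_s (s : U →* U) (n : ℕ) (u : U) : nuj s n (s u) = s (nuj s n u) := by
  rw [nuj_apply, nuj_apply, map_prod]
  exact Finset.prod_congr rfl fun i _ => by
    rw [← Function.iterate_succ_apply, Function.iterate_succ_apply']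

lemma nuj_tele (s : U →* U) (n : ℕ) (u : U) : s (nuj s n u) / nuj s n u = s^[n] u / u := by
  induction n with
  | zero => simp [nuj_apply]
  | succ n ih =>
    rw [nuj_apply, Finset.prod_range_succ, ← nuj_apply, map_mul, mul_div_mul_comm, ih,
      ← Function.iterate_succ_apply' s n u]
    rw [div_mul_div_comm, mul_comm u, mul_div_mul_left_eq_div]

lemma nuj_fix (s : U →* U) (n : ℕ) (u : U) (hu : s u = u) : nuj s n u = u ^ n := by
  rw [nuj_apply]
  have h1 : ∀ i, s^[i] u = u := by
    intro i
    induction i with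
    | zero => rfl
    | succ i ih => rw [Function.iterate_succ_apply', ih, hu]
  simp [h1]

/-- the index `[H : δ H]` as the index of the restriction -/
lemma idx_restr (δ : U →* U) (H : Subgroup U) (hH : ∀ x : H, δ x ∈ H) :
    ((δ.comp H.subtype).codRestrict H hH).range.index = (H.map δ).relIndex H := by
  rw [Subgroup.relIndex]
  congr 1
  ext x
  rw [Subgroup.mem_subgroupOf]
  constructor
  · rintro ⟨y, rfl⟩
    exact ⟨y, y.2, rfl⟩
  · rintro ⟨y, hy, hyx⟩
    exact ⟨⟨y, hy⟩, Subtype.ext hyx⟩

lemma ker_restr (δ : U →* U) (H : Subgroup U) (hH : ∀ x : H, δ x ∈ H) :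
    Nat.card ((δ.comp H.subtype).codRestrict H hH).ker = Nat.card (H ⊓ δ.ker : Subgroup U) := by
  refine Nat.card_congr ⟨fun x => ⟨x.1.1, x.1.2, ?_⟩, fun x => ⟨⟨x.1, x.2.1⟩, ?_⟩,
    fun x => rfl, fun x => rfl⟩
  · exact congrArg Subtype.val x.2
  · exact Subtype.ext x.2.2

end

section
variable {U : Type} [CommGroup U] [Module.Finite ℤ (Additive U)] {p : ℕ} [hp : Fact p.Prime]

/-- torsion subgroups killed by a positive integer are finite -/
lemma fin_tors (H : Subgroup U) (m : ℕ) (hm : 0 < m) (h : ∀ x ∈ H, x ^ m = 1) : Finite H := by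
  haveI : Finite (CommGroup.torsion U) := by
    haveI : Module.Finite ℤ (Additive (CommGroup.torsion U)) := finite_additive_subgroup _
    haveI : AddGroup.FG (Additive (CommGroup.torsion U)) := Module.Finite.iff_addGroup_fg.mp inferInstance
    haveI : Group.FG (CommGroup.torsion U) := GroupFG.iff_add_fg.2 inferInstance
    exact CommGroup.finite_of_fg_isMulTorsion _ (CommMonoid.torsion.isMulTorsion (G := U))
  exact ((Set.toFinite (CommGroup.torsion U : Set U)).subset
    (fun x hx => isOfFinOrder_iff_pow_eq_one.2 ⟨m, hm, h x hx⟩) : (H : Set U).Finite)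

/-- the rank of the kernel of `ν_j` -/
lemma rank_ker (s δ : U →* U) (hδ : ∀ u, δ u = s u / u) (n : ℕ) [NeZero n] (δn : U →* U)
    (hδn : ∀ u, δn u = s^[n] u / u) :
    finrank ℤ (Additive (nuj s n).ker) + finrank ℤ (Additive δ.ker) =
      finrank ℤ (Additive δn.ker) := by
  haveI := finite_additive_subgroup δn.ker
  have hVs : ∀ u, u ∈ δ.ker ↔ s u = u := by
    intro u
    rw [MonoidHom.mem_ker, hδ, div_eq_one]
  have h1 := finrank_additive_ker_add_range ((nuj s n).comp δn.ker.subtype)
  have hle : (nuj s n).ker ≤ δn.ker := by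
    intro u hu
    rw [MonoidHom.mem_ker] at hu ⊢
    rw [hδn, ← nuj_tele, hu, map_one, div_one]
  have h2 : finrank ℤ (Additive ((nuj s n).comp δn.ker.subtype).ker) =
      finrank ℤ (Additive (nuj s n).ker) := by
    refine finrank_additive_congr
      { toFun := fun x => ⟨x.1.1, x.2⟩
        invFun := fun x => ⟨⟨x.1, hle x.2⟩, x.2⟩
        left_inv := fun x => rfl
        right_inv := fun x => rfl
        map_mul' := fun x y => rfl }
  have h3 : finrank ℤ (Additive ((nuj s n).comp δn.ker.subtype).range) =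
      finrank ℤ (Additive δ.ker) := by
    apply le_antisymm
    · apply finrank_mono_sub
      rintro _ ⟨u, rfl⟩
      have hu : δn u = 1 := u.2
      show nuj s n (u : U) ∈ δ.ker
      rw [MonoidHom.mem_ker, hδ, nuj_tele, ← hδn, hu]
    · haveI := finite_additive_subgroup δ.ker
      have h2 : finrank ℤ (Additive (powMonoidHom n : δ.ker →* δ.ker).range) =
          finrank ℤ (Additive δ.ker) := finrank_pow_range n
      have h3 : finrank ℤ (Additive ((powMonoidHom n : δ.ker →* δ.ker).range.map δ.ker.subtype)) =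
          finrank ℤ (Additive (powMonoidHom n : δ.ker →* δ.ker).range) :=
        (finrank_additive_congr (Subgroup.equivMapOfInjective _ δ.ker.subtype δ.ker.subtype_injective)).symm
      refine le_trans (le_of_eq (h2.symm.trans h3.symm)) (finrank_mono_sub ?_)
      rintro _ ⟨_, ⟨x, rfl⟩, rfl⟩
      have hx : s (x : U) = x := (hVs _).1 x.2
      have hx' : (x : U) ∈ δn.ker := by
        rw [MonoidHom.mem_ker, hδn, ← nuj_tele, nuj_fix s n _ hx, map_pow, hx, div_self']
      exact ⟨⟨x, hx'⟩, nuj_fix s n _ hx⟩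
  rw [← h2, ← h3]; exact h1

/-- the Herbrand quotient of `C = ν_j (R_{j+1})` -/
lemma herb_C (s δ : U →* U) (hδ : ∀ u, δ u = s u / u) (j R : ℕ) (C : Subgroup U)
    (hsC : ∀ x ∈ C, s x ∈ C)
    (hC : ∀ x ∈ C, ∏ i ∈ Finset.range p, s^[i * p ^ j] x = 1)
    (hrk : finrank ℤ (Additive C) = (p ^ j * (p - 1)) * R) :
    p ^ R * Nat.card (C ⊓ δ.ker : Subgroup U) ≤ (C.map δ).relIndex C := by
  classical
  haveI : NeZero p := ⟨hp.out.ne_zero⟩
  have hVs : ∀ u, u ∈ δ.ker ↔ s u = u := by
    intro u
    rw [MonoidHom.mem_ker, hδ, div_eq_one]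
  have hδC : ∀ x : C, δ x ∈ C := fun x => by
    rw [hδ]; exact C.div_mem (hsC _ x.2) x.2
  let f : C →* C := (δ.comp C.subtype).codRestrict C hδC
  have hf : ∀ x : C, ((f x : C) : U) = δ x := fun x => rfl
  obtain ⟨G, hG⟩ := exists_cyc_poly p j
  set e := p ^ j * (p - 1) with he
  let S : Module.End ℤ (Additive U) := (MonoidHom.toAdditive s).toIntLinearMap
  have hS : ∀ u : U, S (Additive.ofMul u) = Additive.ofMul (s u) := fun u => rfl
  have hSn : ∀ (n : ℕ) (u : U), (S ^ n) (Additive.ofMul u) = Additive.ofMul (s^[n] u) := by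
    intro n u
    induction n with
    | zero => rfl
    | succ n ih => rw [pow_succ', Module.End.mul_apply, ih, hS, Function.iterate_succ_apply']
  have hS1 : ∀ (n : ℕ) (u : U), ((S - 1) ^ n) (Additive.ofMul u) = Additive.ofMul (δ^[n] u) := by
    intro n u
    induction n with
    | zero => rfl
    | succ n ih =>
      rw [pow_succ', Module.End.mul_apply, ih, Function.iterate_succ_apply', hδ, LinearMap.sub_apply, hS]
      rfl
  let gA : Module.End ℤ (Additive U) := Polynomial.aeval S G
  have hpoly : (S - 1) ^ e = (∑ i ∈ Finset.range p, S ^ (i * p ^ j)) + (p : Module.End ℤ (Additive U)) * gA := by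
    have h1 := congrArg (Polynomial.aeval S) hG
    simpa using h1
  let g0 : U →* U := AddMonoidHom.toMultiplicative (gA : Additive U →ₗ[ℤ] Additive U).toAddMonoidHom
  have hg0 : ∀ u : U, gA (Additive.ofMul u) = Additive.ofMul (g0 u) := fun u => rfl
  have hsum : ∀ u : U, (∑ i ∈ Finset.range p, S ^ (i * p ^ j)) (Additive.ofMul u) =
      Additive.ofMul (∏ i ∈ Finset.range p, s^[i * p ^ j] u) := by
    intro u
    rw [LinearMap.sum_apply, ofMul_prod]
    exact Finset.sum_congr rfl fun i _ => hSn _ u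
  -- `g0` preserves `C`
  have hg0C : ∀ x : C, g0 x ∈ C := by
    intro x
    have key : ∀ (G : ℤ[X]) (y : U), y ∈ C → (Polynomial.aeval S G (Additive.ofMul y)).toMul ∈ C := by
      intro G
      have hn : ∀ (n : ℕ) (y : U), y ∈ C → s^[n] y ∈ C := by
        intro n y hy
        induction n with
        | zero => exact hy
        | succ n ih => rw [Function.iterate_succ_apply']; exact hsC _ ih
      induction G using Polynomial.induction_on' with
      | add P Q hP hQ =>
        intro y hy
        rw [map_add, LinearMap.add_apply, toMul_add]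
        exact C.mul_mem (hP y hy) (hQ y hy)
      | monomial n a =>
        intro y hy
        rw [Polynomial.aeval_monomial, Module.End.mul_apply, hSn]
        have h1 : (algebraMap ℤ (Module.End ℤ (Additive U)) a) (Additive.ofMul (s^[n] y)) =
            a • Additive.ofMul (s^[n] y) := Module.algebraMap_end_apply ..
        rw [h1, toMul_zsmul]
        exact C.zpow_mem (hn n y hy) a
    exact key G x x.2
  let g : C →* C := (g0.comp C.subtype).codRestrict C hg0C
  haveI := finite_additive_subgroup C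
  have hkf : ∀ x : C, f x = 1 → x ^ p = 1 := by
    intro x hx
    have h1 : δ (x : U) = 1 := congrArg Subtype.val hx
    have h2 : s (x : U) = x := (hVs _).1 h1
    apply Subtype.ext
    show (x : U) ^ p = 1
    have h3 := hC x x.2
    have h4 : ∀ i, s^[i] (x : U) = x := by
      intro i
      induction i with
      | zero => rfl
      | succ i ih => rw [Function.iterate_succ_apply', ih, h2]
    simpa [h4] using h3
  have hfg : ∀ x : C, f^[e] x = g x ^ p := by
    intro x
    apply Subtype.ext
    have h1 : ∀ n : ℕ, ((f^[n] x : C) : U) = δ^[n] x := by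
      intro n
      induction n with
      | zero => rfl
      | succ n ih => rw [Function.iterate_succ_apply', Function.iterate_succ_apply', hf, ih]
    rw [h1]
    have h2 := DFunLike.congr_fun hpoly (Additive.ofMul (x : U))
    rw [hS1, LinearMap.add_apply, hsum, hC x x.2, ofMul_one, zero_add, Module.End.mul_apply, hg0] at h2
    have h4 : (p : Module.End ℤ (Additive U)) (Additive.ofMul (g0 x)) = p • Additive.ofMul (g0 x) := by
      rw [Module.End.natCast_apply]
    rw [h4, ← ofMul_pow] at h2
    exact Additive.ofMul.injective h2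
  have hb := herb_bound p e f g hfg hkf
  rw [ker_restr, idx_restr, hrk, mul_comm e, pow_mul, ← mul_pow] at hb
  have he0 : e ≠ 0 := by
    have h1 := hp.out.two_le
    have h2 : 0 < p ^ j := pow_pos hp.out.pos j
    have h3 : 0 < p - 1 := by omega
    exact (Nat.mul_pos h2 h3).ne'
  exact (Nat.pow_le_pow_iff_left he0).1 hb

/-- the induction -/
lemma herb_ind (s δ : U →* U) (hδ : ∀ u, δ u = s u / u) (k R : ℕ)
    (hrank : ∀ j ≤ k, ∀ δj : U →* U, (∀ u, δj u = s^[p ^ j] u / u) →
      Module.finrank ℤ (Additive δj.ker) + 1 = p ^ j * R) :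
    ∀ j ≤ k, p ^ (j * R) * Nat.card ((nuj s (p ^ j)).ker ⊓ δ.ker : Subgroup U) ≤
      ((nuj s (p ^ j)).ker.map δ).relIndex (nuj s (p ^ j)).ker := by
  haveI : NeZero p := ⟨hp.out.ne_zero⟩
  have hVs : ∀ u, u ∈ δ.ker ↔ s u = u := by
    intro u
    rw [MonoidHom.mem_ker, hδ, div_eq_one]
  have hδν : ∀ n u, nuj s n (δ u) = δ (nuj s n u) := fun n u => by
    rw [hδ, hδ, _root_.map_div, nuj_s]
  have hrk0 : finrank ℤ (Additive δ.ker) + 1 = R := by
    have := hrank 0 (Nat.zero_le _) δ (by simpa using hδ)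
    simpa using this
  have hrkj : ∀ j ≤ k, finrank ℤ (Additive (nuj s (p ^ j)).ker) + R = p ^ j * R := by
    intro j hj
    haveI : NeZero (p ^ j) := ⟨pow_ne_zero _ hp.out.ne_zero⟩
    let δj : U →* U := itr s (p ^ j) / MonoidHom.id U
    have hδj : ∀ u, δj u = s^[p ^ j] u / u := fun u => by
      show itr s (p ^ j) u / u = _
      rw [itr_apply]
    have h1 := rank_ker s δ hδ (p ^ j) δj hδj
    have h2 := hrank j hj δj hδj
    omega
  intro j
  induction j with
  | zero =>
    intro _
    have h1 : (nuj s (p ^ 0)).ker = ⊥ := by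
      rw [eq_bot_iff]
      intro u hu
      rw [MonoidHom.mem_ker, nuj_apply] at hu
      simpa using hu
    rw [h1]
    simp
  | succ j ih =>
    intro hj
    have ih' := ih (by omega)
    set A := (nuj s (p ^ (j + 1))).ker with hA
    set B := (nuj s (p ^ j)).ker with hB
    set C := A.map (nuj s (p ^ j)) with hC
    have hmulν : ∀ u, nuj s (p ^ (j + 1)) u = ∏ i ∈ Finset.range p, s^[i * p ^ j] (nuj s (p ^ j) u) := by
      intro u
      rw [pow_succ, mul_comm, nuj_mul]
    have hBA : B ≤ A := by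
      intro u hu
      rw [hA, MonoidHom.mem_ker, hmulν]
      have hu' : nuj s (p ^ j) u = 1 := hu
      refine Finset.prod_eq_one fun i _ => ?_
      rw [hu', ← itr_apply, map_one]
    have hδA : ∀ x : A, δ x ∈ A := fun x => by
      have hx : nuj s (p ^ (j + 1)) (x : U) = 1 := x.2
      show nuj s (p ^ (j + 1)) (δ x) = 1
      rw [hδν, hx, map_one]
    have hδC : ∀ x : C, δ x ∈ C := by
      rintro ⟨_, u, hu, rfl⟩
      exact ⟨δ u, hδA ⟨u, hu⟩, hδν _ _⟩
    have hsC : ∀ x ∈ C, s x ∈ C := by
      rintro _ ⟨u, hu, rfl⟩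
      refine ⟨s u, ?_, nuj_s _ _ _⟩
      have hu' : nuj s (p ^ (j + 1)) u = 1 := hu
      show nuj s (p ^ (j + 1)) (s u) = 1
      rw [nuj_s, hu', map_one]
    have hC1 : ∀ x ∈ C, ∏ i ∈ Finset.range p, s^[i * p ^ j] x = 1 := by
      rintro _ ⟨u, hu, rfl⟩
      rw [← hmulν]; exact hu
    haveI := finite_additive_subgroup A
    let q : A →* C := ((nuj s (p ^ j)).comp A.subtype).codRestrict C (fun x => ⟨x, x.2, rfl⟩)
    have hq : Function.Surjective q := by
      rintro ⟨_, u, hu, rfl⟩
      exact ⟨⟨u, hu⟩, rfl⟩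
    have hqk : q.ker.map A.subtype = B := by
      ext u
      constructor
      · rintro ⟨x, hx, rfl⟩
        exact congrArg Subtype.val hx
      · intro hu
        exact ⟨⟨u, hBA hu⟩, Subtype.ext hu, rfl⟩
    -- the rank of `C`
    have hrkC : finrank ℤ (Additive C) = (p ^ j * (p - 1)) * R := by
      have h1 := finrank_additive_ker_add_range q
      have h2 : finrank ℤ (Additive q.ker) = finrank ℤ (Additive B) := by
        rw [← hqk]
        exact finrank_additive_congr (Subgroup.equivMapOfInjective _ A.subtype A.subtype_injective)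
      have h3 : finrank ℤ (Additive q.range) = finrank ℤ (Additive C) := by
        rw [MonoidHom.range_eq_top.2 hq]
        exact finrank_additive_congr Subgroup.topEquiv
      have h4 := hrkj (j + 1) hj
      have h5 := hrkj j (by omega)
      rw [h2, h3] at h1
      rw [← hA] at h4
      rw [← hB] at h5
      have h6 : p ^ (j + 1) * R = p ^ j * (p - 1) * R + p ^ j * R := by
        calc p ^ (j + 1) * R = p ^ j * p * R := by rw [pow_succ]
          _ = p ^ j * ((p - 1) + 1) * R := by rw [Nat.sub_add_cancel hp.out.pos]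
          _ = _ := by ring
      omega
    have hbC := herb_C (p := p) s δ hδ j R C hsC hC1 hrkC
    -- multiplicativity
    have hm := herb_mul ((δ.comp A.subtype).codRestrict A hδA) ((δ.comp C.subtype).codRestrict C hδC) q hq
      (fun a => Subtype.ext (hδν _ _))
    rw [idx_restr, idx_restr, ker_restr, ker_restr] at hm
    have hm1 : (q.ker.map ((δ.comp A.subtype).codRestrict A hδA)).relIndex q.ker =
        (B.map δ).relIndex B := by
      have h1 := Subgroup.relIndex_map_map A.subtype (q.ker.map ((δ.comp A.subtype).codRestrict A hδA)) q.ker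
      rw [Subgroup.ker_subtype, sup_bot_eq, sup_bot_eq] at h1
      rw [← h1, hqk, ← hqk, Subgroup.map_map, Subgroup.map_map]
      rfl
    have hm2 : Nat.card (q.ker ⊓ ((δ.comp A.subtype).codRestrict A hδA).ker : Subgroup A) =
        Nat.card (B ⊓ δ.ker : Subgroup U) := by
      refine Nat.card_congr ⟨fun x => ⟨x.1.1, ?_, ?_⟩, fun x => ⟨⟨x.1, hBA x.2.1⟩, ?_, ?_⟩,
        fun x => rfl, fun x => rfl⟩
      · exact congrArg Subtype.val x.2.1
      · exact congrArg Subtype.val x.2.2
      · exact Subtype.ext x.2.1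
      · exact Subtype.ext x.2.2
    rw [hm1, hm2] at hm
    have hkfin : ∀ H : Subgroup U, (∀ x ∈ H ⊓ δ.ker, x ^ p ^ (j + 1) = 1) →
        0 < Nat.card (H ⊓ δ.ker : Subgroup U) := by
      intro H h
      haveI := fin_tors (H ⊓ δ.ker) _ (pow_pos hp.out.pos (j + 1)) h
      exact Nat.card_pos
    have hkA : ∀ x ∈ A ⊓ δ.ker, x ^ p ^ (j + 1) = 1 := by
      rintro x ⟨hx1, hx2⟩
      rw [← nuj_fix s (p ^ (j + 1)) x ((hVs x).1 hx2)]; exact hx1
    have hkB : ∀ x ∈ B ⊓ δ.ker, x ^ p ^ (j + 1) = 1 := fun x hx => hkA x ⟨hBA hx.1, hx.2⟩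
    have hkC : ∀ x ∈ C ⊓ δ.ker, x ^ p ^ (j + 1) = 1 := by
      rintro x ⟨hx1, hx2⟩
      have h1 := hC1 x hx1
      have h2 : s x = x := (hVs x).1 hx2
      have h4 : ∀ i, s^[i] x = x := by
        intro i
        induction i with
        | zero => rfl
        | succ i ih => rw [Function.iterate_succ_apply', ih, h2]
      have h5 : x ^ p = 1 := by simpa [h4] using h1
      rw [pow_succ, mul_comm, pow_mul, h5, one_pow]
    have hA0 := hkfin A hkA
    have hB0 := hkfin B hkB
    have hC0 := hkfin C hkC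
    -- conclusion
    apply Nat.le_of_mul_le_mul_right _ (Nat.mul_pos hC0 hB0)
    calc p ^ ((j + 1) * R) * Nat.card (A ⊓ δ.ker : Subgroup U) *
          (Nat.card (C ⊓ δ.ker : Subgroup U) * Nat.card (B ⊓ δ.ker : Subgroup U)) =
        (p ^ R * Nat.card (C ⊓ δ.ker : Subgroup U)) *
          (p ^ (j * R) * Nat.card (B ⊓ δ.ker : Subgroup U)) * Nat.card (A ⊓ δ.ker : Subgroup U) := by
          rw [add_mul, one_mul, pow_add]; ring
      _ ≤ (C.map δ).relIndex C * (B.map δ).relIndex B * Nat.card (A ⊓ δ.ker : Subgroup U) :=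
          Nat.mul_le_mul_right _ (Nat.mul_le_mul hbC ih')
      _ = (A.map δ).relIndex A * (Nat.card (C ⊓ δ.ker : Subgroup U) *
            Nat.card (B ⊓ δ.ker : Subgroup U)) := by rw [← hm]; ring

end

theorem main : Pool.Agent.H55.MU.S_HERB := by
  intro U _ _ p k R hp s δ ν hs hδ hν hrank
  haveI : NeZero p := ⟨hp.out.ne_zero⟩
  haveI : NeZero (p ^ k) := ⟨pow_ne_zero _ hp.out.ne_zero⟩
  have hνj : ν = nuj s (p ^ k) := by
    ext u
    rw [hν, nuj_apply]
  subst hνj
  have hind := herb_ind (p := p) s δ hδ k R hrank k le_rfl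
  have hVs : ∀ u, u ∈ δ.ker ↔ s u = u := by
    intro u
    rw [MonoidHom.mem_ker, hδ, div_eq_one]
  have hrk0 : finrank ℤ (Additive δ.ker) + 1 = R := by
    have := hrank 0 (Nat.zero_le _) δ (by simpa using hδ)
    simpa using this
  set ν := nuj s (p ^ k) with hνd
  set V := δ.ker with hV
  set R' := ν.ker with hR
  have hrV : ν.range ≤ V := by
    rintro _ ⟨u, rfl⟩
    rw [hV, MonoidHom.mem_ker, hδ, hνd, nuj_tele, hs, div_self']
  have hδR : δ.range ≤ R' := by
    rintro _ ⟨u, rfl⟩
    rw [hR, MonoidHom.mem_ker, hδ, _root_.map_div, hνd, nuj_s, nuj_tele, hs, div_self']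
  have hmapν : V.map ν = V.map (powMonoidHom (p ^ k)) := by
    ext u
    constructor
    · rintro ⟨v, hv, rfl⟩
      exact ⟨v, hv, (nuj_fix s _ v ((hVs v).1 hv)).symm⟩
    · rintro ⟨v, hv, rfl⟩
      exact ⟨v, hv, nuj_fix s _ v ((hVs v).1 hv)⟩
  have e1 : (V.map ν).relIndex ν.range = (V ⊔ R').index := by
    rw [MonoidHom.range_eq_map, Subgroup.relIndex_map_map, top_sup_eq, Subgroup.relIndex_top_right]
  have e2 : (R'.map δ).relIndex δ.range = (V ⊔ R').index := by
    rw [MonoidHom.range_eq_map, Subgroup.relIndex_map_map, top_sup_eq, Subgroup.relIndex_top_right, sup_comm]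
  have e3 : (V.map ν).relIndex ν.range * ν.range.relIndex V = (V.map ν).relIndex V :=
    Subgroup.relIndex_mul_relIndex _ _ _ (Subgroup.map_le_range ν V) hrV
  have e4 : (R'.map δ).relIndex δ.range * δ.range.relIndex R' = (R'.map δ).relIndex R' :=
    Subgroup.relIndex_mul_relIndex _ _ _ (Subgroup.map_le_range δ R') hδR
  have e5 := relIndex_pw V (p ^ k)
  rw [← hmapν] at e5
  set a := finrank ℤ (Additive V) with ha
  have hcard : Nat.card {x : U // x ∈ V ∧ x ^ p ^ k = 1} = Nat.card (R' ⊓ V : Subgroup U) := by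
    refine Nat.card_congr ⟨fun x => ⟨x.1, ?_, x.2.1⟩, fun x => ⟨x.1, x.2.2, ?_⟩, fun x => rfl, fun x => rfl⟩
    · show ν x.1 = 1
      rw [hνd, nuj_fix s _ _ ((hVs _).1 x.2.1)]; exact x.2.2
    · have h1 : ν x.1 = 1 := x.2.1
      rw [hνd, nuj_fix s _ _ ((hVs _).1 x.2.2)] at h1
      exact h1
  rw [hcard] at e5
  set t := Nat.card (R' ⊓ V : Subgroup U) with ht
  have htpos : t ≠ 0 := by
    haveI := fin_tors (R' ⊓ V) (p ^ k) (pow_pos hp.out.pos k) (fun x hx => by
      have h1 : ν x = 1 := hx.1
      rw [hνd, nuj_fix s _ _ ((hVs _).1 hx.2)] at h1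
      exact h1)
    exact Nat.card_pos.ne'
  have hVt : (V.map ν).relIndex V ≠ 0 := by
    rw [e5]
    exact mul_ne_zero (pow_ne_zero _ (pow_ne_zero _ hp.out.ne_zero)) htpos
  have hi0 : (V ⊔ R').index ≠ 0 := by
    intro h
    rw [e1, h, zero_mul] at e3
    exact hVt e3.symm
  refine ⟨?_, ?_⟩
  · apply Nat.le_of_mul_le_mul_left _ (Nat.pos_of_ne_zero hi0)
    have h1 : (V ⊔ R').index * (p ^ k * ν.range.relIndex V) = p ^ (k * R) * t := by
      calc (V ⊔ R').index * (p ^ k * ν.range.relIndex V) =
            p ^ k * ((V ⊔ R').index * ν.range.relIndex V) := by ring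
        _ = p ^ k * ((p ^ k) ^ a * t) := by rw [← e1, e3, e5]
        _ = (p ^ k) ^ (a + 1) * t := by ring
        _ = p ^ (k * R) * t := by rw [hrk0, ← pow_mul]
    have h2 : (V ⊔ R').index * δ.range.relIndex R' = (R'.map δ).relIndex R' := by rw [← e2, e4]
    rw [h1, h2]
    exact hind
  · intro h
    rw [h, mul_zero] at e3
    exact hVt e3.symm

end Pool.Agent.H33MU
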