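import Pool.Agent.Helper832_EG.PD3

/-!
# Herbrand quotients, cyclic groups of prime power order: preliminaries
-/

set_option linter.style.haveILetI false
set_option linter.unusedSectionVars false
set_option linter.unusedVariables false

open Module Pool.Agent.TeamU Polynomial Pool.Agent.Helper832_EG

namespace Pool.Agent.H33MU

/-- `(X - 1) ^ (p ^ j * (p - 1)) = 1 + X ^ (p ^ j) + ... + X ^ ((p-1) * p ^ j) + p G`. -/
lemma exists_cyc_poly (p j : ℕ) [hp : Fact p.Prime] :
    ∃ G : ℤ[X], (X - 1) ^ (p ^ j * (p - 1)) =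
      (∑ i ∈ Finset.range p, X ^ (i * p ^ j)) + (p : ℤ[X]) * G := by
  have h1 : ((X - 1) ^ (p ^ j * (p - 1)) - ∑ i ∈ Finset.range p, X ^ (i * p ^ j) : ℤ[X]).map
      (Int.castRingHom (ZMod p)) = 0 := by
    rw [Polynomial.map_sub, Polynomial.map_pow, Polynomial.map_sub, Polynomial.map_X, Polynomial.map_one,
      Polynomial.map_sum, sub_eq_zero]
    simp only [Polynomial.map_pow, Polynomial.map_X]
    have h2 : (X ^ p ^ j - 1 : (ZMod p)[X]) ≠ 0 := by
      have := Polynomial.X_pow_sub_C_ne_zero (pow_pos hp.out.pos j) (1 : ZMod p)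
      simpa using this
    apply mul_right_cancel₀ h2
    have h3 : (X ^ p ^ j - 1 : (ZMod p)[X]) = (X - 1) ^ p ^ j := by
      rw [sub_pow_char_pow, one_pow]
    have h4 : ∑ i ∈ Finset.range p, (X : (ZMod p)[X]) ^ (i * p ^ j) =
        ∑ i ∈ Finset.range p, (X ^ p ^ j) ^ i :=
      Finset.sum_congr rfl fun i _ => by rw [← pow_mul, mul_comm]
    rw [h4, geom_sum_mul, h3, ← pow_add, ← pow_mul]
    have h5 : p ^ j * (p - 1) + p ^ j = p ^ (j + 1) := by
      calc p ^ j * (p - 1) + p ^ j = p ^ j * ((p - 1) + 1) := by ring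
        _ = p ^ j * p := by rw [Nat.sub_add_cancel hp.out.pos]
        _ = p ^ (j + 1) := (pow_succ _ _).symm
    rw [h5, ← pow_succ, sub_pow_char_pow, one_pow]
  have h3 : (C (p : ℤ)) ∣ ((X - 1) ^ (p ^ j * (p - 1)) - ∑ i ∈ Finset.range p, X ^ (i * p ^ j) : ℤ[X]) := by
    rw [Polynomial.C_dvd_iff_dvd_coeff]
    intro i
    have h4 := congrArg (fun q => q.coeff i) h1
    simp only [Polynomial.coeff_map, Polynomial.coeff_zero] at h4
    exact (ZMod.intCast_zmod_eq_zero_iff_dvd _ p).1 h4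
  obtain ⟨G, hG⟩ := h3
  refine ⟨G, ?_⟩
  rw [sub_eq_iff_eq_add'] at hG
  rw [hG]
  simp

/-- An endomorphism `f` with `f ^ e` divisible by `p` has a large Herbrand quotient. -/
lemma herb_bound {A : Type*} [CommGroup A] [Module.Finite ℤ (Additive A)] (p e : ℕ) [hp : Fact p.Prime]
    (f g : A →* A) (hfg : ∀ x, f^[e] x = g x ^ p) (hk : ∀ x, f x = 1 → x ^ p = 1) :
    p ^ finrank ℤ (Additive A) * (Nat.card f.ker) ^ e ≤ f.range.index ^ e := by
  classical
  obtain ⟨m, hm, hmt⟩ := exists_exp A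
  haveI : NeZero m := ⟨hm.ne'⟩
  haveI : NeZero p := ⟨hp.out.ne_zero⟩
  set B : Subgroup A := (powMonoidHom m : A →* A).range with hB
  have hBtf : ∀ x ∈ B, IsOfFinOrder x → x = 1 := by
    rintro _ ⟨y, rfl⟩ hy
    have hy' : IsOfFinOrder y := (isOfFinOrder_pow.1 hy).resolve_right hm.ne'
    exact hmt y hy'
  have hfin : Finite (powMonoidHom m : A →* A).ker := by
    obtain ⟨s, hs⟩ : ∃ s : Set A, s.Finite ∧ ∀ x : A, IsOfFinOrder x → x ∈ s := by
      haveI : Module.Finite ℤ (Additive (CommGroup.torsion A)) := finite_additive_subgroup _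
      haveI : AddGroup.FG (Additive (CommGroup.torsion A)) := Module.Finite.iff_addGroup_fg.mp inferInstance
      haveI : Group.FG (CommGroup.torsion A) := GroupFG.iff_add_fg.2 inferInstance
      haveI : Finite (CommGroup.torsion A) :=
        CommGroup.finite_of_fg_isMulTorsion _ (CommMonoid.torsion.isMulTorsion (G := A))
      exact ⟨CommGroup.torsion A, Set.toFinite _, fun x hx => hx⟩
    exact (hs.1.subset (fun x hx => hs.2 x (isOfFinOrder_iff_pow_eq_one.2 ⟨m, hm, hx⟩)) :
      ((powMonoidHom m : A →* A).ker : Set A).Finite)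
  have hBi : B.index ≠ 0 := by
    rw [hB, index_pw A m]
    exact mul_ne_zero (pow_ne_zero _ hm.ne') Nat.card_pos.ne'
  have hfB : B.map f ≤ B := by
    rintro _ ⟨_, ⟨y, rfl⟩, rfl⟩
    exact ⟨f y, (map_pow f y m).symm⟩
  have hgB : B.map g ≤ B := by
    rintro _ ⟨_, ⟨y, rfl⟩, rfl⟩
    exact ⟨g y, (map_pow g y m).symm⟩
  have hkB : B ⊓ f.ker = ⊥ := by
    rw [eq_bot_iff]
    rintro x ⟨hx1, hx2⟩
    exact hBtf x hx1 (isOfFinOrder_iff_pow_eq_one.2 ⟨p, hp.out.pos, hk x hx2⟩)
  have h1 := index_range_eq f B hBi hfB hkB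
  -- the restriction to `B`
  let fB : B →* B := (f.comp B.subtype).codRestrict B (fun x => hfB ⟨x, x.2, rfl⟩)
  let gB : B →* B := (g.comp B.subtype).codRestrict B (fun x => hgB ⟨x, x.2, rfl⟩)
  have hfB' : ∀ x : B, ((fB x : B) : A) = f x := fun x => rfl
  have hgB' : ∀ x : B, ((gB x : B) : A) = g x := fun x => rfl
  have hinj : Function.Injective fB := by
    rw [injective_iff_map_eq_one]
    intro x hx
    have h2 : (x : A) ∈ B ⊓ f.ker := ⟨x.2, (MonoidHom.mem_ker).2 (congrArg Subtype.val hx)⟩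
    rw [hkB] at h2
    exact Subtype.ext h2
  have h2 : fB.range.index = (B.map f).relIndex B := by
    rw [Subgroup.relIndex]
    congr 1
    ext x
    rw [Subgroup.mem_subgroupOf]
    constructor
    · rintro ⟨y, rfl⟩
      exact ⟨y, y.2, rfl⟩
    · rintro ⟨y, hy, hyx⟩
      exact ⟨⟨y, hy⟩, Subtype.ext hyx⟩
  have h3 := index_range_pow fB hinj e
  haveI := finite_additive_subgroup B
  have h4 : (itr fB e).range ≤ (powMonoidHom p : B →* B).range := by
    rintro _ ⟨x, rfl⟩
    refine ⟨gB x, ?_⟩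
    apply Subtype.ext
    show (g x : A) ^ p = _
    rw [← hfg, itr_apply]
    clear h3 h2 h1 hfg
    induction e with
    | zero => rfl
    | succ n ih => rw [Function.iterate_succ_apply', Function.iterate_succ_apply', ih, hfB']
  have h5 : (powMonoidHom p : B →* B).range.index = p ^ finrank ℤ (Additive A) := by
    rw [index_pw B p, finrank_pow_range]
    have : Nat.card (powMonoidHom p : B →* B).ker = 1 := by
      rw [Nat.card_eq_one_iff_unique]
      refine ⟨⟨fun x y => ?_⟩, ⟨1⟩⟩
      have key : ∀ z : (powMonoidHom p : B →* B).ker, z = 1 := by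
        intro z
        apply Subtype.ext
        apply Subtype.ext
        refine hBtf _ z.1.2 (isOfFinOrder_iff_pow_eq_one.2 ⟨p, hp.out.pos, ?_⟩)
        exact congrArg Subtype.val z.2
      rw [key x, key y]
    rw [this, mul_one]
  have hfi : (itr fB e).range.index ≠ 0 := by
    refine index_ne_zero_of_inj _ ?_
    intro x y hxy
    rw [itr_apply, itr_apply] at hxy
    exact hinj.iterate _ hxy
  have h6 : p ^ finrank ℤ (Additive A) ≤ (itr fB e).range.index := by
    rw [← h5]
    exact Nat.le_of_dvd (Nat.pos_of_ne_zero hfi) (Subgroup.index_dvd_of_le h4)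
  rw [h1, ← h2, mul_pow, ← h3]
  exact Nat.mul_le_mul_right _ h6

/-- Multiplicativity of the Herbrand quotient. -/
lemma herb_mul {A C : Type*} [CommGroup A] [CommGroup C] (f : A →* A) (fC : C →* C) (q : A →* C)
    (hq : Function.Surjective q) (hqf : ∀ a, q (f a) = fC (q a)) :
    f.range.index * Nat.card fC.ker * Nat.card (q.ker ⊓ f.ker : Subgroup A) =
      fC.range.index * (q.ker.map f).relIndex q.ker * Nat.card f.ker := by
  set B := q.ker with hB
  have hfB : B.map f ≤ B := by
    rintro _ ⟨b, hb, rfl⟩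
    have hb' : q b = 1 := hb
    exact (MonoidHom.mem_ker).2 (by rw [hqf, hb', map_one])
  have hfB' : B.map f ≤ f.range ⊓ B := le_inf (Subgroup.map_le_range f B) hfB
  set A' := B.comap f with hA'
  -- a = x c
  have ha : f.range.relIndex (f.range ⊔ B) * (f.range ⊔ B).index = f.range.index :=
    Subgroup.relIndex_mul_index le_sup_left
  have hc : (f.range ⊔ B).index = fC.range.index := by
    rw [← Subgroup.index_comap_of_surjective fC.range hq]
    congr 1
    ext x
    rw [Subgroup.mem_comap]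
    constructor
    · intro hx
      rw [Subgroup.mem_sup] at hx
      obtain ⟨_, ⟨y, rfl⟩, z, hz, rfl⟩ := hx
      have hz' : q z = 1 := hz
      exact ⟨q y, by rw [map_mul, hqf, hz', mul_one]⟩
    · rintro ⟨y, hy⟩
      obtain ⟨w, rfl⟩ := hq y
      rw [Subgroup.mem_sup]
      refine ⟨f w, ⟨w, rfl⟩, (f w)⁻¹ * x, (MonoidHom.mem_ker).2 ?_, by group⟩
      rw [map_mul, map_inv, hqf, hy, inv_mul_cancel]
  have hx1 : f.range.relIndex (f.range ⊔ B) = (f.range ⊓ B).relIndex B := by
    rw [Subgroup.inf_relIndex_right]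
    exact Subgroup.relIndex_sup_left ..
  -- b = y x
  have hb : (B.map f).relIndex (f.range ⊓ B) * (f.range ⊓ B).relIndex B = (B.map f).relIndex B :=
    Subgroup.relIndex_mul_relIndex _ _ _ hfB' inf_le_right
  have hBA' : B ≤ A' := by
    intro b hb
    exact hfB ⟨b, hb, rfl⟩
  have hkA' : f.ker ≤ A' := by
    intro b hb
    have hb' : f b = 1 := hb
    show f b ∈ B
    rw [hb']; exact B.one_mem
  have hy : (B.map f).relIndex (f.range ⊓ B) = (B ⊔ f.ker).relIndex A' := by
    have h1 : A'.map f = f.range ⊓ B := by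
      rw [hA', Subgroup.map_comap_eq]
    rw [← h1, Subgroup.relIndex_map_map, sup_eq_left.2 hkA']
  have hkC : B.relIndex (B ⊔ f.ker) * (B ⊔ f.ker).relIndex A' = B.relIndex A' :=
    Subgroup.relIndex_mul_relIndex _ _ _ le_sup_left (sup_le hBA' hkA')
  have hkC' : B.relIndex A' = Nat.card fC.ker := by
    have h1 : A' = fC.ker.comap q := by
      ext x
      rw [hA', Subgroup.mem_comap, Subgroup.mem_comap, hB, MonoidHom.mem_ker, MonoidHom.mem_ker, hqf]
    have h2 : B = (⊥ : Subgroup C).comap q := by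
      rw [hB]; rfl
    rw [h2, Subgroup.relIndex_comap, h1, Subgroup.map_comap_eq_self_of_surjective hq,
      Subgroup.relIndex_bot_left]
  have hkA : Nat.card (B ⊓ f.ker : Subgroup A) * B.relIndex (B ⊔ f.ker) = Nat.card f.ker := by
    have h1 : B.relIndex (B ⊔ f.ker) = (B ⊓ f.ker).relIndex f.ker := by
      rw [Subgroup.inf_relIndex_right, sup_comm, Subgroup.relIndex_sup_right]
    have h2 : (⊥ : Subgroup A).relIndex (B ⊓ f.ker) * (B ⊓ f.ker).relIndex f.ker =
        (⊥ : Subgroup A).relIndex f.ker :=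
      Subgroup.relIndex_mul_relIndex _ _ _ bot_le inf_le_right
    rw [Subgroup.relIndex_bot_left, Subgroup.relIndex_bot_left] at h2
    rw [h1]; exact h2
  rw [← ha, hc, hx1, ← hkC', ← hkC, ← hb, hy, ← hkA]
  ring

end Pool.Agent.H33MU
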